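import Mathlib

namespace Pool.Agent.Results.MP_8269f7_co.SublinearMaxDegree

open SimpleGraph

/-- `G` has a `K₄` minor: there are four pairwise disjoint vertex sets, each inducing a connected
subgraph, any two of which are joined by an edge of `G`. -/
def HasK4Minor {V : Type} (G : SimpleGraph V) : Prop :=
  ∃ f : Fin 4 → Set V, (∀ i, (G.induce (f i)).Connected) ∧
    (∀ i j, i ≠ j → Disjoint (f i) (f j)) ∧
    (∀ i j, i ≠ j → ∃ a ∈ f i, ∃ b ∈ f j, G.Adj a b)

/-- contraction of `x` into `y` on a fixed vertex set (`x` becomes isolated) -/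
def contract {V : Type} (H : SimpleGraph V) (x y : V) : SimpleGraph V where
  Adj p r := p ≠ r ∧ p ≠ x ∧ r ≠ x ∧ (H.Adj p r ∨ (p = y ∧ H.Adj x r) ∨ (r = y ∧ H.Adj x p))
  symm := ⟨by
    rintro p r ⟨h1, h2, h3, h4⟩
    refine ⟨h1.symm, h3, h2, ?_⟩
    rcases h4 with h | h | h
    · exact Or.inl h.symm
    · exact Or.inr (Or.inr h)
    · exact Or.inr (Or.inl h)⟩
  loopless := ⟨fun p h => h.1 rfl⟩

theorem contract_not_adj_left {V : Type} (H : SimpleGraph V) (x y r : V) :
    ¬ (contract H x y).Adj x r := fun h => h.2.1 rfl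

theorem contract_minor {V : Type} (H : SimpleGraph V) (x y : V) (hxy : H.Adj x y)
    (h : HasK4Minor (contract H x y)) : HasK4Minor H := by
  classical
  obtain ⟨f, hc, hd, ha⟩ := h
  have hx : ∀ i, x ∉ f i := by
    intro i hxi
    obtain ⟨j, hj⟩ : ∃ j : Fin 4, i ≠ j := by
      rcases eq_or_ne i 0 with h | h
      · exact ⟨1, by rw [h]; decide⟩
      · exact ⟨0, h⟩
    obtain ⟨a, hai, b, hbj, hab⟩ := ha i j hj
    have hax : a ≠ x := hab.2.1
    obtain ⟨w⟩ := (hc i).preconnected ⟨x, hxi⟩ ⟨a, hai⟩
    cases w with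
    | nil => exact hax rfl
    | cons h _ => exact contract_not_adj_left H x y _ h
  let g : Fin 4 → Set V := fun i => if y ∈ f i then insert x (f i) else f i
  have hfg : ∀ i, f i ⊆ g i := by
    intro i a ha
    by_cases hy : y ∈ f i
    · simp only [g, hy, if_true]; exact Set.mem_insert_of_mem _ ha
    · simp only [g, hy, if_false]; exact ha
  have hgx : ∀ i, y ∈ f i → x ∈ g i := by
    intro i hy
    simp only [g, hy, if_true]; exact Set.mem_insert _ _
  have hgm : ∀ i a, a ∈ g i → a ∈ f i ∨ (a = x ∧ y ∈ f i) := by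
    intro i a hai
    by_cases hy : y ∈ f i
    · simp only [g, hy, if_true] at hai
      rcases hai with h | h
      · exact Or.inr ⟨h, hy⟩
      · exact Or.inl h
    · simp only [g, hy, if_false] at hai
      exact Or.inl hai
  refine ⟨g, ?_, ?_, ?_⟩
  · intro i
    by_cases hy : y ∈ f i
    · -- connected via y
      rw [connected_iff_exists_forall_reachable]
      refine ⟨⟨y, hfg i hy⟩, ?_⟩
      have key : ∀ p : f i, (H.induce (g i)).Reachable ⟨y, hfg i hy⟩ ⟨p.1, hfg i p.2⟩ := by
        intro p
        have hr := (hc i).preconnected ⟨y, hy⟩ p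
        rw [reachable_iff_reflTransGen] at hr
        induction hr with
        | refl => exact Reachable.refl _
        | tail _ hbc ih =>
          rename_i b c _
          obtain ⟨h1, h2, h3, h4⟩ := hbc
          rcases h4 with h | h | h
          · refine ih.trans (Adj.reachable ?_)
            exact h
          · obtain ⟨hb, hxc⟩ := h
            have e1 : (H.induce (g i)).Adj ⟨y, hfg i hy⟩ ⟨x, hgx i hy⟩ := hxy.symm
            have e2 : (H.induce (g i)).Adj ⟨x, hgx i hy⟩ ⟨c.1, hfg i c.2⟩ := hxc
            exact e1.reachable.trans e2.reachable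
          · obtain ⟨hb, hxc⟩ := h
            have : c = ⟨y, hy⟩ := Subtype.ext hb
            subst this
            exact Reachable.refl _
      rintro ⟨p, hp⟩
      rcases hgm i p hp with h | ⟨h, -⟩
      · exact key ⟨p, h⟩
      · subst h
        have e1 : (H.induce (g i)).Adj ⟨y, hfg i hy⟩ ⟨p, hp⟩ := hxy.symm
        exact e1.reachable
    · have hg : g i = f i := by simp only [g, hy, if_false]
      rw [hg]
      refine (hc i).mono ?_
      intro a b hab
      obtain ⟨h1, h2, h3, h4⟩ := hab
      rcases h4 with h | h | h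
      · exact h
      · exact absurd (h.1 ▸ a.2) hy
      · exact absurd (h.1 ▸ b.2) hy
  · intro i j hij
    rw [Set.disjoint_left]
    intro a hai haj
    rcases hgm i a hai with h | ⟨h, hy⟩
    · rcases hgm j a haj with h' | ⟨h', hy'⟩
      · exact Set.disjoint_left.1 (hd i j hij) h h'
      · exact hx i (h' ▸ h)
    · rcases hgm j a haj with h' | ⟨h', hy'⟩
      · exact hx j (h ▸ h')
      · exact Set.disjoint_left.1 (hd i j hij) hy hy'
  · intro i j hij
    obtain ⟨a, hai, b, hbj, h1, h2, h3, h4⟩ := ha i j hij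
    rcases h4 with h | h | h
    · exact ⟨a, hfg i hai, b, hfg j hbj, h⟩
    · obtain ⟨rfl, h⟩ := h
      exact ⟨x, hgx i hai, b, hfg j hbj, h⟩
    · obtain ⟨rfl, h⟩ := h
      exact ⟨a, hfg i hai, x, hgx j hbj, h.symm⟩


/-- vertices incident with an edge -/
def active {V : Type} (H : SimpleGraph V) : Set V := {v | ∃ w, H.Adj v w}

/-- `v` has at most two neighbours -/
def Small {V : Type} (H : SimpleGraph V) (v : V) : Prop :=
  ∃ p q, ∀ w, H.Adj v w → w = p ∨ w = q

theorem not_small {V : Type} {H : SimpleGraph V} {v : V} (h : ¬ Small H v) (p q : V) :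
    ∃ w, H.Adj v w ∧ w ≠ p ∧ w ≠ q := by
  by_contra hc
  push Not at hc
  exact h ⟨p, q, fun w hw => by
    by_cases h1 : w = p
    · exact Or.inl h1
    · exact Or.inr (hc w hw h1)⟩

theorem active_contract {V : Type} (H : SimpleGraph V) (x y : V) (hxy : H.Adj x y) :
    active (contract H x y) ⊆ active H ∧ x ∉ active (contract H x y) := by
  constructor
  · rintro v ⟨w, h1, h2, h3, h4⟩
    rcases h4 with h | h | h
    · exact ⟨w, h⟩
    · exact ⟨x, by rw [h.1]; exact hxy.symm⟩
    · exact ⟨x, h.2.symm⟩
  · rintro ⟨w, h⟩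
    exact contract_not_adj_left H x y w h

theorem active_contract_ncard {V : Type} [Finite V] (H : SimpleGraph V) (x y : V)
    (hxy : H.Adj x y) : (active (contract H x y)).ncard < (active H).ncard := by
  have h := active_contract H x y hxy
  apply Set.ncard_lt_ncard _ (Set.toFinite _)
  refine ⟨h.1, fun hc => h.2 (hc ⟨y, hxy⟩)⟩

/-- four mutually adjacent vertices give a `K₄` minor -/
theorem k4_of_adj {V : Type} {H : SimpleGraph V} {x y p r : V} (h1 : H.Adj x y) (h2 : H.Adj x p)
    (h3 : H.Adj x r) (h4 : H.Adj y p) (h5 : H.Adj y r) (h6 : H.Adj p r) : HasK4Minor H := by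
  let e : Fin 4 → V := ![x, y, p, r]
  have he : ∀ i j, i ≠ j → H.Adj (e i) (e j) := by
    intro i j hij
    fin_cases i <;> fin_cases j <;> simp [e] at hij ⊢ <;>
      first | assumption | (apply SimpleGraph.Adj.symm; assumption)
  refine ⟨fun i => {e i}, fun i => ?_, fun i j hij => ?_, fun i j hij => ?_⟩
  · rw [connected_iff_exists_forall_reachable]
    refine ⟨⟨e i, rfl⟩, ?_⟩
    rintro ⟨w, hw⟩
    have : w = e i := hw
    subst this
    exact Reachable.refl _
  · rw [Set.disjoint_singleton]
    exact (he i j hij).ne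
  · exact ⟨e i, rfl, e j, rfl, he i j hij⟩

/-- main graph lemma -/
theorem exists_small_aux {V : Type} [Finite V] : ∀ (m : ℕ) (H : SimpleGraph V),
    (active H).ncard ≤ m → ¬ HasK4Minor H → ∀ a b, H.Adj a b →
    (∃ v, v ≠ a ∧ v ≠ b ∧ v ∈ active H) →
    ∃ v, v ≠ a ∧ v ≠ b ∧ v ∈ active H ∧ Small H v := by
  intro m
  induction m with
  | zero =>
    intro H hm _ a b hab _
    exfalso
    have : a ∈ active H := ⟨b, hab⟩
    have h0 : (active H).ncard = 0 := by omega
    rw [Set.ncard_eq_zero (Set.toFinite _)] at h0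
    rw [h0] at this
    exact this
  | succ m ih =>
    intro H hm hK a b hab hex
    by_contra hcon
    have NS : ∀ v, v ≠ a → v ≠ b → v ∈ active H → ¬ Small H v := by
      intro v h1 h2 h3 h4
      exact hcon ⟨v, h1, h2, h3, h4⟩
    -- dichotomy
    have Dich : ∀ x y, x ≠ a → x ≠ b → H.Adj x y →
        (∃ v w, v ≠ a ∧ v ≠ b ∧ H.Adj v x ∧ H.Adj v y ∧ ∀ u, H.Adj v u → u = x ∨ u = y ∨ u = w) ∨
        (y ≠ a ∧ y ≠ b ∧ ∃ p r, p ≠ r ∧ H.Adj x p ∧ H.Adj x r ∧ H.Adj y p ∧ H.Adj y r ∧
          (∀ u, H.Adj x u → u = y ∨ u = p ∨ u = r) ∧ (∀ u, H.Adj y u → u = x ∨ u = p ∨ u = r)) := by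
      intro x y hxa hxb hxy
      have hyx : y ≠ x := hxy.ne.symm
      obtain ⟨p, hxp, hpy, -⟩ := not_small (NS x hxa hxb ⟨y, hxy⟩) y y
      obtain ⟨r, hxr, hry, hrp⟩ := not_small (NS x hxa hxb ⟨y, hxy⟩) y p
      have hyp' : (contract H x y).Adj y p :=
        ⟨hpy.symm, hyx, hxp.ne.symm, Or.inr (Or.inl ⟨rfl, hxp⟩)⟩
      have hyr' : (contract H x y).Adj y r :=
        ⟨hry.symm, hyx, hxr.ne.symm, Or.inr (Or.inl ⟨rfl, hxr⟩)⟩
      have hK' : ¬ HasK4Minor (contract H x y) := fun h => hK (contract_minor H x y hxy h)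
      have hcard : (active (contract H x y)).ncard ≤ m := by
        have := active_contract_ncard H x y hxy
        omega
      have hab' : (contract H x y).Adj a b := ⟨hab.ne, hxa.symm, hxb.symm, Or.inl hab⟩
      have hex' : ∃ v, v ≠ a ∧ v ≠ b ∧ v ∈ active (contract H x y) := by
        by_cases hya : y = a
        · by_cases hpb : p = b
          · refine ⟨r, ?_, ?_, ⟨y, hyr'.symm⟩⟩
            · rw [← hya]; exact hry
            · rw [← hpb]; exact hrp
          · refine ⟨p, ?_, hpb, ⟨y, hyp'.symm⟩⟩
            rw [← hya]; exact hpy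
        · by_cases hyb : y = b
          · by_cases hpa : p = a
            · refine ⟨r, ?_, ?_, ⟨y, hyr'.symm⟩⟩
              · rw [← hpa]; exact hrp
              · rw [← hyb]; exact hry
            · refine ⟨p, hpa, ?_, ⟨y, hyp'.symm⟩⟩
              rw [← hyb]; exact hpy
          · exact ⟨y, hya, hyb, ⟨p, hyp'⟩⟩
      obtain ⟨v, hva, hvb, hvact, s, t, hst⟩ := ih _ hcard hK' a b hab' hex'
      have hvx : v ≠ x := by
        rintro rfl
        exact (active_contract H v y hxy).2 hvact
      by_cases hvy : v = y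
      · -- case v = y
        subst hvy
        right
        refine ⟨hva, hvb, p, r, hrp.symm, hxp, hxr, ?_⟩
        have hpr : ∀ u, (contract H x v).Adj v u → u = p ∨ u = r := by
          intro u hu
          have h1 := hst p hyp'
          have h2 := hst r hyr'
          have h3 := hst u hu
          rcases h1 with h1 | h1 <;> rcases h2 with h2 | h2 <;> rcases h3 with h3 | h3
          · exact absurd (h2.trans h1.symm) hrp
          · exact absurd (h2.trans h1.symm) hrp
          · left; rw [h1, h3]
          · right; rw [h2, h3]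
          · right; rw [h2, h3]
          · left; rw [h1, h3]
          · exact absurd (h2.trans h1.symm) hrp
          · exact absurd (h2.trans h1.symm) hrp
        have hNy : ∀ u, H.Adj v u → u = x ∨ u = p ∨ u = r := by
          intro u hu
          by_cases hux : u = x
          · exact Or.inl hux
          · exact Or.inr (hpr u ⟨hu.ne, hyx, hux, Or.inl hu⟩)
        have hvact' : v ∈ active H := ⟨x, hxy.symm⟩
        have hyp : H.Adj v p := by
          obtain ⟨u, hu, h1, h2⟩ := not_small (NS v hva hvb hvact') x r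
          rcases hNy u hu with h | h | h
          · exact absurd h h1
          · rw [← h]; exact hu
          · exact absurd h h2
        have hyr : H.Adj v r := by
          obtain ⟨u, hu, h1, h2⟩ := not_small (NS v hva hvb hvact') x p
          rcases hNy u hu with h | h | h
          · exact absurd h h1
          · exact absurd h h2
          · rw [← h]; exact hu
        refine ⟨hyp, hyr, ?_, hNy⟩
        intro u hu
        by_cases huy : u = v
        · exact Or.inl huy
        · exact Or.inr (hpr u ⟨fun h => huy h.symm, hyx, hu.ne.symm, Or.inr (Or.inl ⟨rfl, hu⟩)⟩)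
      · left
        have hvactH : v ∈ active H := (active_contract H x y hxy).1 hvact
        have hmove : ∀ u, H.Adj v u → u ≠ x → (contract H x y).Adj v u := by
          intro u hu hux
          exact ⟨hu.ne, hvx, hux, Or.inl hu⟩
        have hvxadj : H.Adj v x := by
          by_contra hn
          apply NS v hva hvb hvactH
          refine ⟨s, t, fun u hu => hst u (hmove u hu ?_)⟩
          rintro rfl
          exact hn hu
        have hvy' : (contract H x y).Adj v y :=
          ⟨hvy, hvx, hyx, Or.inr (Or.inr ⟨rfl, hvxadj.symm⟩)⟩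
        have hvyadj : H.Adj v y := by
          by_contra hn
          apply NS v hva hvb hvactH
          rcases hst y hvy' with h | h
          · refine ⟨x, t, fun u hu => ?_⟩
            by_cases hux : u = x
            · exact Or.inl hux
            · rcases hst u (hmove u hu hux) with h' | h'
              · exfalso; rw [h', ← h] at hu; exact hn hu
              · exact Or.inr h'
          · refine ⟨x, s, fun u hu => ?_⟩
            by_cases hux : u = x
            · exact Or.inl hux
            · rcases hst u (hmove u hu hux) with h' | h'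
              · exact Or.inr h'
              · exfalso; rw [h', ← h] at hu; exact hn hu
        rcases hst y hvy' with h | h
        · refine ⟨v, t, hva, hvb, hvxadj, hvyadj, fun u hu => ?_⟩
          by_cases hux : u = x
          · exact Or.inl hux
          · rcases hst u (hmove u hu hux) with h' | h'
            · right; left; rw [h', h]
            · right; right; exact h'
        · refine ⟨v, s, hva, hvb, hvxadj, hvyadj, fun u hu => ?_⟩
          by_cases hux : u = x
          · exact Or.inl hux
          · rcases hst u (hmove u hu hux) with h' | h'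
            · right; right; exact h'
            · right; left; rw [h', h]
    -- structure T
    have T : ∃ x y p r, x ≠ a ∧ x ≠ b ∧ y ≠ a ∧ y ≠ b ∧ H.Adj x y ∧ p ≠ r ∧ H.Adj x p ∧
        H.Adj x r ∧ H.Adj y p ∧ H.Adj y r ∧ (∀ u, H.Adj x u → u = y ∨ u = p ∨ u = r) ∧
        (∀ u, H.Adj y u → u = x ∨ u = p ∨ u = r) := by
      obtain ⟨x, hxa, hxb, y, hxy⟩ := hex
      rcases Dich x y hxa hxb hxy with ⟨z, w, hza, hzb, hzx, hzy, hNz⟩ | ⟨hya, hyb, p, r, h1, h2, h3, h4, h5, h6, h7⟩
      · obtain ⟨u, hu, hux, huy⟩ := not_small (NS z hza hzb ⟨x, hzx⟩) x y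
        have huw : u = w := by
          rcases hNz u hu with h | h | h
          · exact absurd h hux
          · exact absurd h huy
          · exact h
        subst huw
        rcases Dich z u hza hzb hu with ⟨v, w', hva, hvb, hvz, hvu, hNv⟩ | ⟨hya, hyb, p, r, h1, h2, h3, h4, h5, h6, h7⟩
        · rcases hNz v hvz.symm with h | h | h
          · -- v = x, y' = y
            subst h
            have hw' : y = w' := by
              rcases hNv y hxy with h | h | h
              · exact absurd h hzy.ne.symm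
              · exact absurd h.symm huy
              · exact h
            subst hw'
            refine ⟨z, v, y, u, hza, hzb, hva, hvb, hvz.symm, huy.symm, hzy, hu, hxy, hvu, hNz, ?_⟩
            intro t ht
            rcases hNv t ht with h | h | h
            · exact Or.inl h
            · exact Or.inr (Or.inr h)
            · exact Or.inr (Or.inl h)
          · -- v = y, y' = x
            subst h
            have hw' : x = w' := by
              rcases hNv x hxy.symm with h | h | h
              · exact absurd h hzx.ne.symm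
              · exact absurd h.symm hux
              · exact h
            subst hw'
            refine ⟨z, v, x, u, hza, hzb, hva, hvb, hvz.symm, hux.symm, hzx, hu, hxy.symm, hvu, ?_, ?_⟩
            · intro t ht
              rcases hNz t ht with h | h | h
              · exact Or.inr (Or.inl h)
              · exact Or.inl h
              · exact Or.inr (Or.inr h)
            · intro t ht
              rcases hNv t ht with h | h | h
              · exact Or.inl h
              · exact Or.inr (Or.inr h)
              · exact Or.inr (Or.inl h)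
          · exact absurd h hvu.ne
        · exact ⟨z, u, p, r, hza, hzb, hya, hyb, hu, h1, h2, h3, h4, h5, h6, h7⟩
      · exact ⟨x, y, p, r, hxa, hxb, hya, hyb, hxy, h1, h2, h3, h4, h5, h6, h7⟩
    obtain ⟨x, y, p, r, hxa, hxb, hya, hyb, hxy, hpr, hxp, hxr, hyp, hyr, hNx, hNy⟩ := T
    have hnpr : ¬ H.Adj p r := fun h => hK (k4_of_adj hxy hxp hxr hyp hyr h)
    -- double contraction
    have hy1 : (contract H x p).Adj y p := ⟨hyp.ne, hxy.ne.symm, hxp.ne.symm, Or.inl hyp⟩
    have hH2 : ∀ u v, (contract (contract H x p) y p).Adj u v ↔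
        (u ≠ v ∧ u ≠ x ∧ v ≠ x ∧ u ≠ y ∧ v ≠ y ∧
          (H.Adj u v ∨ (u = p ∧ v = r) ∨ (u = r ∧ v = p))) := by
      intro u v
      constructor
      · rintro ⟨h1, h2, h3, h4⟩
        rcases h4 with ⟨g1, g2, g3, g4⟩ | ⟨g0, g1, g2, g3, g4⟩ | ⟨g0, g1, g2, g3, g4⟩
        · refine ⟨h1, g2, g3, h2, h3, ?_⟩
          rcases g4 with h | ⟨h, h'⟩ | ⟨h, h'⟩
          · exact Or.inl h
          · rcases hNx v h' with h'' | h'' | h''
            · exact absurd h'' h3
            · exact absurd (h.trans h''.symm) h1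
            · exact Or.inr (Or.inl ⟨h, h''⟩)
          · rcases hNx u h' with h'' | h'' | h''
            · exact absurd h'' h2
            · exact absurd (h''.trans h.symm) h1
            · exact Or.inr (Or.inr ⟨h'', h⟩)
        · refine ⟨h1, ?_, g3, h2, h3, ?_⟩
          · rw [g0]; exact hxp.ne.symm
          · rcases g4 with h | ⟨h, h'⟩ | ⟨h, h'⟩
            · rcases hNy v h with h'' | h'' | h''
              · exact absurd h'' g3
              · exact absurd (g0.trans h''.symm) h1
              · exact Or.inr (Or.inl ⟨g0, h''⟩)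
            · exact absurd h hyp.ne
            · exact absurd (g0.trans h.symm) h1
        · refine ⟨h1, g3, ?_, h2, h3, ?_⟩
          · rw [g0]; exact hxp.ne.symm
          · rcases g4 with h | ⟨h, h'⟩ | ⟨h, h'⟩
            · rcases hNy u h with h'' | h'' | h''
              · exact absurd h'' g3
              · exact absurd (h''.trans g0.symm) h1
              · exact Or.inr (Or.inr ⟨h'', g0⟩)
            · exact absurd h hyp.ne
            · exact absurd (h.trans g0.symm) h1
      · rintro ⟨h1, h2, h3, h4, h5, h6⟩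
        rcases h6 with h | ⟨h, h'⟩ | ⟨h, h'⟩
        · exact ⟨h1, h4, h5, Or.inl ⟨h1, h2, h3, Or.inl h⟩⟩
        · refine ⟨h1, h4, h5, Or.inl ⟨h1, h2, h3, Or.inr (Or.inl ⟨h, ?_⟩)⟩⟩
          rw [h']; exact hxr
        · refine ⟨h1, h4, h5, Or.inl ⟨h1, h2, h3, Or.inr (Or.inr ⟨h', ?_⟩)⟩⟩
          rw [h]; exact hxr
    have hK2 : ¬ HasK4Minor (contract (contract H x p) y p) := by
      intro h
      exact hK (contract_minor H x p hxp (contract_minor _ y p hy1 h))
    have hcard2 : (active (contract (contract H x p) y p)).ncard ≤ m := by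
      have h1 := active_contract_ncard H x p hxp
      have h2 := active_contract_ncard _ y p hy1
      omega
    have hab2 : (contract (contract H x p) y p).Adj a b :=
      (hH2 a b).2 ⟨hab.ne, hxa.symm, hxb.symm, hya.symm, hyb.symm, Or.inl hab⟩
    have hpr2 : (contract (contract H x p) y p).Adj p r :=
      (hH2 p r).2 ⟨hpr, hxp.ne.symm, hxr.ne.symm, hyp.ne.symm, hyr.ne.symm, Or.inr (Or.inl ⟨rfl, rfl⟩)⟩
    have hex2 : ∃ v, v ≠ a ∧ v ≠ b ∧ v ∈ active (contract (contract H x p) y p) := by
      by_contra hno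
      push Not at hno
      have hp : p = a ∨ p = b := by
        by_contra hc
        push Not at hc
        exact hno p hc.1 hc.2 ⟨r, hpr2⟩
      have hr : r = a ∨ r = b := by
        by_contra hc
        push Not at hc
        exact hno r hc.1 hc.2 ⟨p, hpr2.symm⟩
      rcases hp with hp | hp <;> rcases hr with hr | hr
      · exact hpr (hp.trans hr.symm)
      · exact hnpr (by rw [hp, hr]; exact hab)
      · exact hnpr (by rw [hp, hr]; exact hab.symm)
      · exact hpr (hp.trans hr.symm)
    obtain ⟨v, hva, hvb, ⟨v', hvv'⟩, s, t, hst⟩ := ih _ hcard2 hK2 a b hab2 hex2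
    have hv := (hH2 v v').1 hvv'
    have hvx : v ≠ x := hv.2.1
    have hvy : v ≠ y := hv.2.2.2.1
    -- a general contradiction for v = p, and symmetrically v = r
    have fin : ∀ p' r', p' ≠ a → p' ≠ b → ¬ H.Adj p' r' → H.Adj x p' → H.Adj y p' → p' ≠ r' →
        (∀ u, H.Adj x u → u = y ∨ u = p' ∨ u = r') → (∀ u, H.Adj y u → u = x ∨ u = p' ∨ u = r') →
        (∀ u, H.Adj p' u → u = x ∨ u = y ∨ (contract (contract H x p) y p).Adj p' u) →
        (contract (contract H x p) y p).Adj p' r' →
        (∀ w, (contract (contract H x p) y p).Adj p' w → w = s ∨ w = t) → False := by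
      intro p' r' hpa hpb hn hxp' hyp' hpr' hNx' hNy' hmv hr' hst'
      -- the third neighbour
      obtain ⟨t', ht', htx, hty⟩ := not_small (NS p' hpa hpb ⟨x, hxp'.symm⟩) x y
      have hNp : ∀ u, H.Adj p' u → u = x ∨ u = y ∨ u = t' := by
        have ht2 : (contract (contract H x p) y p).Adj p' t' := by
          rcases hmv t' ht' with h | h | h
          · exact absurd h htx
          · exact absurd h hty
          · exact h
        have htr : t' ≠ r' := by
          rintro rfl
          exact hn ht'
        intro u hu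
        rcases hmv u hu with h | h | h
        · exact Or.inl h
        · exact Or.inr (Or.inl h)
        · right; right
          have hur : u ≠ r' := by
            rintro rfl
            exact hn hu
          rcases hst' u h with h1 | h1 <;> rcases hst' t' ht2 with h2 | h2 <;> rcases hst' r' hr' with h3 | h3
          · rw [h1, h2]
          · rw [h1, h2]
          · exact absurd (h1.trans h3.symm) hur
          · exact absurd (h2.trans h3.symm) htr
          · exact absurd (h2.trans h3.symm) htr
          · exact absurd (h1.trans h3.symm) hur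
          · rw [h1, h2]
          · rw [h1, h2]
      have hnx : ¬ H.Adj x t' := by
        intro h
        rcases hNx' t' h with h' | h' | h'
        · exact hty h'
        · exact ht'.ne h'.symm
        · rw [h'] at ht'; exact hn ht'
      have hny : ¬ H.Adj y t' := by
        intro h
        rcases hNy' t' h with h' | h' | h'
        · exact htx h'
        · exact ht'.ne h'.symm
        · rw [h'] at ht'; exact hn ht'
      rcases Dich p' t' hpa hpb ht' with ⟨v1, w1, -, -, hv1, hv2, -⟩ | ⟨-, -, p1, r1, h1, h2, h3, h4, h5, h6, h7⟩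
      · rcases hNp v1 hv1.symm with h | h | h
        · rw [h] at hv2; exact hnx hv2
        · rw [h] at hv2; exact hny hv2
        · exact hv2.ne h
      · rcases hNp p1 h2 with h | h | h
        · rw [h] at h4; exact hnx h4.symm
        · rw [h] at h4; exact hny h4.symm
        · exact h4.ne h.symm
    by_cases hvp : v = p
    · subst hvp
      refine fin v r hva hvb hnpr hxp hyp hpr hNx hNy ?_ hpr2 hst
      intro u hu
      by_cases h1 : u = x
      · exact Or.inl h1
      by_cases h2 : u = y
      · exact Or.inr (Or.inl h2)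
      exact Or.inr (Or.inr ((hH2 v u).2 ⟨hu.ne, hvx, h1, hvy, h2, Or.inl hu⟩))
    by_cases hvr : v = r
    · subst hvr
      refine fin v p hva hvb (fun h => hnpr h.symm) hxr hyr (Ne.symm hpr) ?_ ?_ ?_ hpr2.symm hst
      · intro u hu
        rcases hNx u hu with h | h | h
        · exact Or.inl h
        · exact Or.inr (Or.inr h)
        · exact Or.inr (Or.inl h)
      · intro u hu
        rcases hNy u hu with h | h | h
        · exact Or.inl h
        · exact Or.inr (Or.inr h)
        · exact Or.inr (Or.inl h)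
      · intro u hu
        by_cases h1 : u = x
        · exact Or.inl h1
        by_cases h2 : u = y
        · exact Or.inr (Or.inl h2)
        exact Or.inr (Or.inr ((hH2 v u).2 ⟨hu.ne, hvx, h1, hvy, h2, Or.inl hu⟩))
    -- remaining case: neighbourhood unchanged
    have hvH : H.Adj v v' := by
      rcases hv.2.2.2.2.2 with h | h | h
      · exact h
      · exact absurd h.1 hvp
      · exact absurd h.1 hvr
    apply NS v hva hvb ⟨v', hvH⟩
    refine ⟨s, t, fun u hu => hst u ((hH2 v u).2 ⟨hu.ne, hvx, ?_, hvy, ?_, Or.inl hu⟩)⟩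
    · rintro rfl
      rcases hNx v hu.symm with h | h | h
      · exact hvy h
      · exact hvp h
      · exact hvr h
    · rintro rfl
      rcases hNy v hu.symm with h | h | h
      · exact hvx h
      · exact hvp h
      · exact hvr h

/-- a graph with an edge and no `K₄` minor has a non-isolated vertex with at most 2 neighbours -/
theorem exists_small {V : Type} [Finite V] (H : SimpleGraph V) (hK : ¬ HasK4Minor H)
    (a b : V) (hab : H.Adj a b) : ∃ v, v ∈ active H ∧ Small H v := by
  by_cases hex : ∃ v, v ≠ a ∧ v ≠ b ∧ v ∈ active H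
  · obtain ⟨v, -, -, h1, h2⟩ := exists_small_aux _ H le_rfl hK a b hab hex
    exact ⟨v, h1, h2⟩
  · push Not at hex
    refine ⟨a, ⟨b, hab⟩, b, b, fun w hw => ?_⟩
    left
    by_contra hwb
    exact hex w hw.ne.symm hwb ⟨a, hw.symm⟩



/-! ### analytic part -/

/-- the bound `ψ(a,b) = min(a,b) + exp(λ(a+b)) - 1` -/
noncomputable def psi (lam : ℝ) (a b : ℕ) : ℝ :=
  ((min a b : ℕ) : ℝ) + (Real.exp (lam * ((a : ℝ) + b)) - 1)

/-- `y` is `0` or close to `1` -/
def Bd (lam : ℝ) (y : ℂ) (s : ℝ) : Prop := y = 0 ∨ ‖y - 1‖ ≤ Real.exp (lam * s) - 1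

theorem psi_nonneg {lam : ℝ} (hl : 0 ≤ lam) (a b : ℕ) : 0 ≤ psi lam a b := by
  unfold psi
  have h1 : (0 : ℝ) ≤ ((min a b : ℕ) : ℝ) := Nat.cast_nonneg _
  have h2 : 1 ≤ Real.exp (lam * ((a : ℝ) + b)) := Real.one_le_exp (by positivity)
  linarith

theorem psi_comm (lam : ℝ) (a b : ℕ) : psi lam a b = psi lam b a := by
  unfold psi
  rw [min_comm, add_comm (a : ℝ) b]

theorem psi_add {lam : ℝ} (hl : 0 ≤ lam) (a b a' b' : ℕ) :
    psi lam a b + psi lam a' b' ≤ psi lam (a + a') (b + b') := by
  unfold psi
  have h1 : ((min a b : ℕ) : ℝ) + ((min a' b' : ℕ) : ℝ) ≤ ((min (a + a') (b + b') : ℕ) : ℝ) := by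
    have : min a b + min a' b' ≤ min (a + a') (b + b') := by omega
    exact_mod_cast this
  have h2 : 1 ≤ Real.exp (lam * ((a : ℝ) + b)) := Real.one_le_exp (by positivity)
  have h3 : 1 ≤ Real.exp (lam * ((a' : ℝ) + b')) := Real.one_le_exp (by positivity)
  have h4 : Real.exp (lam * (((a + a' : ℕ) : ℝ) + ((b + b' : ℕ) : ℝ))) =
      Real.exp (lam * ((a : ℝ) + b)) * Real.exp (lam * ((a' : ℝ) + b')) := by
    rw [← Real.exp_add]
    congr 1
    push_cast
    ring
  rw [h4]
  nlinarith [mul_nonneg (sub_nonneg.2 h2) (sub_nonneg.2 h3)]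

theorem Bd.mono {lam : ℝ} (hl : 0 ≤ lam) {y : ℂ} {s t : ℝ} (h : Bd lam y s) (hst : s ≤ t) :
    Bd lam y t := by
  rcases h with h | h
  · exact Or.inl h
  · right
    have : Real.exp (lam * s) ≤ Real.exp (lam * t) :=
      Real.exp_le_exp.2 (mul_le_mul_of_nonneg_left hst hl)
    linarith

theorem Bd.mul {lam : ℝ} {y z : ℂ} {s t : ℝ} (h : Bd lam y s)
    (h' : Bd lam z t) : Bd lam (y * z) (s + t) := by
  rcases h with h | h
  · left; rw [h, zero_mul]
  · rcases h' with h' | h'
    · left; rw [h', mul_zero]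
    · right
      have e1 : y * z - 1 = (y - 1) * (z - 1) + (y - 1) + (z - 1) := by ring
      have e2 : Real.exp (lam * (s + t)) = Real.exp (lam * s) * Real.exp (lam * t) := by
        rw [← Real.exp_add]; congr 1; ring
      rw [e1, e2]
      have n1 : ‖(y - 1) * (z - 1) + (y - 1) + (z - 1)‖ ≤ ‖y - 1‖ * ‖z - 1‖ + ‖y - 1‖ + ‖z - 1‖ := by
        refine (norm_add_le _ _).trans ?_
        refine add_le_add ((norm_add_le _ _).trans ?_) le_rfl
        rw [norm_mul]
      have p1 := norm_nonneg (y - 1)
      have p2 := norm_nonneg (z - 1)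
      have p3 : ‖y - 1‖ * ‖z - 1‖ ≤ (Real.exp (lam * s) - 1) * (Real.exp (lam * t) - 1) :=
        mul_le_mul h h' p2 (by linarith)
      nlinarith

theorem Bd.norm_le {lam : ℝ} (hl : 0 ≤ lam) {v : ℂ} {s : ℝ} (hs : 0 ≤ s) (h : Bd lam (1 + v) s) :
    ‖v‖ ≤ Real.exp (lam * s) := by
  rcases h with h | h
  · have : v = -1 := by linear_combination h
    rw [this, norm_neg, norm_one]
    exact Real.one_le_exp (by positivity)
  · rw [add_sub_cancel_left] at h
    linarith

/-- the two smallness conditions -/
structure Cond (k : ℕ) (q : ℂ) : Prop where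
  pos : 0 < ‖q‖
  A : 2 * Real.exp (2 / ‖q‖ * ((k : ℝ) + (Real.exp (2 / ‖q‖ * ((k : ℝ) + k)) - 1))) ≤ ‖q‖ / 4
  B : Real.exp (2 * (2 / ‖q‖ * (Real.exp (2 / ‖q‖ * ((k : ℝ) + k)) - 1))) ≤ 3 / 2

theorem Cond.norm_bound {k : ℕ} {q : ℂ} (hc : Cond k q) {v : ℂ} {a c : ℕ} (ha : a ≤ k)
    (hc' : c ≤ k) (h : Bd (2 / ‖q‖) (1 + v) (psi (2 / ‖q‖) a c)) :
    ‖v‖ ≤ Real.exp (2 / ‖q‖ * ((a : ℝ) + (Real.exp (2 / ‖q‖ * ((k : ℝ) + k)) - 1))) := by
  have hN := hc.pos
  have hl : 0 ≤ 2 / ‖q‖ := by positivity
  refine (Bd.norm_le hl (psi_nonneg hl a c) h).trans ?_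
  apply Real.exp_le_exp.2
  apply mul_le_mul_of_nonneg_left _ hl
  unfold psi
  have h1 : ((min a c : ℕ) : ℝ) ≤ a := by exact_mod_cast min_le_left a c
  have h2 : Real.exp (2 / ‖q‖ * ((a : ℝ) + c)) ≤ Real.exp (2 / ‖q‖ * ((k : ℝ) + k)) := by
    apply Real.exp_le_exp.2
    apply mul_le_mul_of_nonneg_left _ hl
    have : (a : ℝ) ≤ k := by exact_mod_cast ha
    have : (c : ℝ) ≤ k := by exact_mod_cast hc'
    linarith
  linarith

theorem Cond.norm_bound' {k : ℕ} {q : ℂ} (hc : Cond k q) {v : ℂ} {a c : ℕ} (ha : a ≤ k)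
    (hc' : c ≤ k) (h : Bd (2 / ‖q‖) (1 + v) (psi (2 / ‖q‖) a c)) : ‖v‖ ≤ ‖q‖ / 8 := by
  have hN := hc.pos
  have hl : 0 ≤ 2 / ‖q‖ := by positivity
  have h1 := hc.norm_bound ha hc' h
  have h2 : Real.exp (2 / ‖q‖ * ((a : ℝ) + (Real.exp (2 / ‖q‖ * ((k : ℝ) + k)) - 1))) ≤
      Real.exp (2 / ‖q‖ * ((k : ℝ) + (Real.exp (2 / ‖q‖ * ((k : ℝ) + k)) - 1))) := by
    apply Real.exp_le_exp.2
    apply mul_le_mul_of_nonneg_left _ hl
    have : (a : ℝ) ≤ k := by exact_mod_cast ha
    linarith
  have h3 := hc.A
  linarith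

/-- series reduction -/
theorem Cond.series {k : ℕ} {q : ℂ} (hc : Cond k q) {v w : ℂ} {a c c' b : ℕ} (ha : a ≤ k)
    (hcc : c ≤ k) (hcc' : c' ≤ k) (hb : b ≤ k) (ha1 : 1 ≤ a) (hb1 : 1 ≤ b)
    (hv : Bd (2 / ‖q‖) (1 + v) (psi (2 / ‖q‖) a c))
    (hw : Bd (2 / ‖q‖) (1 + w) (psi (2 / ‖q‖) b c')) :
    q + v + w ≠ 0 ∧ Bd (2 / ‖q‖) (1 + v * w / (q + v + w)) (psi (2 / ‖q‖) a b) := by
  have hN := hc.pos
  have hl : 0 ≤ 2 / ‖q‖ := by positivity
  have v8 := hc.norm_bound' ha hcc hv
  have w8 := hc.norm_bound' hb hcc' hw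
  have hden : 3 / 4 * ‖q‖ ≤ ‖q + v + w‖ := by
    have h1 : ‖q‖ ≤ ‖q + v + w‖ + ‖v‖ + ‖w‖ := by
      have : q = (q + v + w) - v - w := by ring
      calc ‖q‖ = ‖(q + v + w) - v - w‖ := by rw [← this]
        _ ≤ ‖(q + v + w) - v‖ + ‖w‖ := norm_sub_le _ _
        _ ≤ ‖q + v + w‖ + ‖v‖ + ‖w‖ := by
          have := norm_sub_le (q + v + w) v
          linarith
    linarith
  have hne : q + v + w ≠ 0 := by
    intro h
    rw [h, norm_zero] at hden
    linarith
  refine ⟨hne, Or.inr ?_⟩
  rw [add_sub_cancel_left, norm_div, norm_mul]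
  set lam := 2 / ‖q‖ with hlam
  set E1 := Real.exp (lam * ((k : ℝ) + k)) - 1 with hE1
  have nv := hc.norm_bound ha hcc hv
  have nw := hc.norm_bound hb hcc' hw
  rw [← hlam, ← hE1] at nv nw
  have hB := hc.B
  rw [← hlam, ← hE1] at hB
  have hprod : ‖v‖ * ‖w‖ ≤ Real.exp (lam * ((a : ℝ) + b)) * (3 / 2) := by
    calc ‖v‖ * ‖w‖ ≤ Real.exp (lam * (a + E1)) * Real.exp (lam * (b + E1)) :=
          mul_le_mul nv nw (norm_nonneg _) (Real.exp_pos _).le
      _ = Real.exp (lam * ((a : ℝ) + b)) * Real.exp (2 * (lam * E1)) := by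
          rw [← Real.exp_add, ← Real.exp_add]; congr 1; ring
      _ ≤ _ := mul_le_mul_of_nonneg_left hB (Real.exp_pos _).le
  have h3 : ‖v‖ * ‖w‖ / ‖q + v + w‖ ≤ lam * Real.exp (lam * ((a : ℝ) + b)) := by
    rw [div_le_iff₀ (by linarith)]
    have e1 : lam * (3 / 4 * ‖q‖) = 3 / 2 := by
      rw [hlam]; field_simp; norm_num
    calc ‖v‖ * ‖w‖ ≤ Real.exp (lam * ((a : ℝ) + b)) * (3 / 2) := hprod
      _ = lam * Real.exp (lam * ((a : ℝ) + b)) * (3 / 4 * ‖q‖) := by rw [← e1]; ring
      _ ≤ _ := mul_le_mul_of_nonneg_left hden (by positivity)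
  refine h3.trans ?_
  have h4 : Real.exp (lam * ((a : ℝ) + b)) ≤ psi lam a b := by
    unfold psi
    have : (1 : ℝ) ≤ ((min a b : ℕ) : ℝ) := by exact_mod_cast le_min ha1 hb1
    linarith
  have h5 : lam * Real.exp (lam * ((a : ℝ) + b)) ≤ lam * psi lam a b :=
    mul_le_mul_of_nonneg_left h4 hl
  have h6 := Real.add_one_le_exp (lam * psi lam a b)
  linarith

theorem mul_exp_neg_le {x : ℝ} : x * Real.exp (-x) ≤ 1 := by
  have h1 := Real.add_one_le_exp x
  have h2 := Real.exp_pos (-x)
  have h3 : Real.exp x * Real.exp (-x) = 1 := by rw [← Real.exp_add]; simp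
  nlinarith

/-- the conditions hold once `|q| ≥ 32 k / log k` -/
theorem cond_of_large {k : ℕ} (hk : 2 ≤ k) {q : ℂ} (hq : 32 * k / Real.log k ≤ ‖q‖) :
    Cond k q := by
  have hk' : (1 : ℝ) < k := by exact_mod_cast (by omega : 1 < k)
  have hk0 : (0 : ℝ) < k := by linarith
  set L := Real.log k with hL
  have hL0 : 0 < L := Real.log_pos hk'
  have hkL : (k : ℝ) = Real.exp L := (Real.exp_log hk0).symm
  have hpos : 0 < 32 * (k : ℝ) / L := by positivity
  have hN : 0 < ‖q‖ := lt_of_lt_of_le hpos hq
  have hlam : 2 / ‖q‖ ≤ L / (16 * k) := by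
    rw [div_le_div_iff₀ hN (by positivity)]
    rw [div_le_iff₀ hL0] at hq
    nlinarith
  have hl0 : 0 ≤ 2 / ‖q‖ := by positivity
  have hlk : 2 / ‖q‖ * k ≤ L / 16 := by
    calc 2 / ‖q‖ * k ≤ L / (16 * k) * k := mul_le_mul_of_nonneg_right hlam hk0.le
      _ = L / 16 := by field_simp
  have hE : Real.exp (2 / ‖q‖ * ((k : ℝ) + k)) ≤ Real.exp (L / 8) := by
    apply Real.exp_le_exp.2
    have : 2 / ‖q‖ * ((k : ℝ) + k) = 2 * (2 / ‖q‖ * k) := by ring
    rw [this]; linarith
  have hE1 : 1 ≤ Real.exp (2 / ‖q‖ * ((k : ℝ) + k)) := Real.one_le_exp (by positivity)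
  have hlE : 2 / ‖q‖ * (Real.exp (2 / ‖q‖ * ((k : ℝ) + k)) - 1) ≤ 1 / 14 := by
    calc 2 / ‖q‖ * (Real.exp (2 / ‖q‖ * ((k : ℝ) + k)) - 1)
        ≤ 2 / ‖q‖ * Real.exp (L / 8) := mul_le_mul_of_nonneg_left (by linarith) hl0
      _ ≤ L / (16 * k) * Real.exp (L / 8) := mul_le_mul_of_nonneg_right hlam (Real.exp_pos _).le
      _ = 1 / 14 * ((7 * L / 8) * Real.exp (-(7 * L / 8))) := by
          rw [hkL]
          have e1 : Real.exp L ≠ 0 := (Real.exp_pos L).ne'
          have e2 : Real.exp (L / 8) = Real.exp L * Real.exp (-(7 * L / 8)) := by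
            rw [← Real.exp_add]; congr 1; ring
          rw [e2]; field_simp; ring
      _ ≤ 1 / 14 * 1 := by
          apply mul_le_mul_of_nonneg_left mul_exp_neg_le; norm_num
      _ = 1 / 14 := by norm_num
  refine ⟨hN, ?_, ?_⟩
  · have h1 : Real.exp (2 / ‖q‖ * ((k : ℝ) + (Real.exp (2 / ‖q‖ * ((k : ℝ) + k)) - 1))) ≤
        Real.exp (L / 16 + 1 / 14) := by
      apply Real.exp_le_exp.2
      rw [mul_add]; linarith
    have h2 : Real.exp (1 / 14 : ℝ) ≤ 14 / 13 := by
      have h3 := Real.add_one_le_exp (-(1 / 14 : ℝ))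
      have h4 : Real.exp (1 / 14 : ℝ) * Real.exp (-(1 / 14 : ℝ)) = 1 := by
        rw [← Real.exp_add]; simp
      have h5 := Real.exp_pos (1 / 14 : ℝ)
      nlinarith
    have h6 : L * Real.exp (L / 16) ≤ 16 / 15 * Real.exp L := by
      have h7 : (15 * L / 16) * Real.exp (-(15 * L / 16)) ≤ 1 := mul_exp_neg_le
      have e2 : Real.exp (L / 16) = Real.exp L * Real.exp (-(15 * L / 16)) := by
        rw [← Real.exp_add]; congr 1; ring
      rw [e2]
      have := Real.exp_pos L
      nlinarith
    have h8 : 8 * Real.exp L / L ≤ ‖q‖ / 4 := by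
      have : 8 * Real.exp L / L = (32 * k / L) / 4 := by rw [← hkL]; ring
      rw [this]; linarith
    refine le_trans ?_ h8
    rw [le_div_iff₀ hL0]
    rw [Real.exp_add] at h1
    have p1 := Real.exp_pos (L / 16)
    have p2 := Real.exp_pos L
    calc 2 * Real.exp (2 / ‖q‖ * ((k : ℝ) + (Real.exp (2 / ‖q‖ * ((k : ℝ) + k)) - 1))) * L
        ≤ 2 * (Real.exp (L / 16) * Real.exp (1 / 14)) * L := by
          apply mul_le_mul_of_nonneg_right _ hL0.le
          linarith
      _ ≤ 2 * (Real.exp (L / 16) * (14 / 13)) * L := by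
          apply mul_le_mul_of_nonneg_right _ hL0.le
          apply mul_le_mul_of_nonneg_left _ (by norm_num)
          exact mul_le_mul_of_nonneg_left h2 p1.le
      _ = 28 / 13 * (L * Real.exp (L / 16)) := by ring
      _ ≤ 28 / 13 * (16 / 15 * Real.exp L) := by
          apply mul_le_mul_of_nonneg_left h6; norm_num
      _ ≤ 8 * Real.exp L := by nlinarith
  · have h1 : Real.exp (2 * (2 / ‖q‖ * (Real.exp (2 / ‖q‖ * ((k : ℝ) + k)) - 1))) ≤
        Real.exp (1 / 7) := by
      apply Real.exp_le_exp.2; linarith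
    have h3 := Real.add_one_le_exp (-(1 / 7 : ℝ))
    have h4 : Real.exp (1 / 7 : ℝ) * Real.exp (-(1 / 7 : ℝ)) = 1 := by
      rw [← Real.exp_add]; simp
    have h5 := Real.exp_pos (1 / 7 : ℝ)
    nlinarith



open Polynomial

/-! ### partition functions -/

section PF

variable {V : Type} [Fintype V] [DecidableEq V]

/-- `1` if `σ` is constant on the pair `e`, `0` otherwise -/
noncomputable def dl {n : ℕ} (σ : V → Fin n) (e : Sym2 V) : ℂ :=
  if (e.map σ).IsDiag then 1 else 0

omit [Fintype V] [DecidableEq V] in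
theorem dl_mk {n : ℕ} (σ : V → Fin n) (u w : V) :
    dl σ s(u, w) = if σ u = σ w then 1 else 0 := by
  unfold dl
  rw [Sym2.map_mk]
  simp only [Sym2.mk_isDiag_iff]

/-- weighted number of colourings -/
noncomputable def W (A B : Sym2 V → ℂ) {n : ℕ} (σ : V → Fin n) : ℂ :=
  ∏ e : Sym2 V, (A e + B e * dl σ e)

theorem sum_update {n : ℕ} (x : V) (F : (V → Fin n) → ℂ) :
    ∑ σ : V → Fin n, ∑ c : Fin n, F (Function.update σ x c) = n * ∑ σ, F σ := by
  let e : ((V → Fin n) × Fin n) ≃ ((V → Fin n) × Fin n) :=
    { toFun := fun p => (Function.update p.1 x p.2, p.1 x)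
      invFun := fun p => (Function.update p.1 x p.2, p.1 x)
      left_inv := by intro p; simp
      right_inv := by intro p; simp }
  calc ∑ σ : V → Fin n, ∑ c : Fin n, F (Function.update σ x c)
      = ∑ p : (V → Fin n) × Fin n, F (e p).1 := by rw [Fintype.sum_prod_type]; rfl
    _ = ∑ p : (V → Fin n) × Fin n, F p.1 := Equiv.sum_comp e (fun p => F p.1)
    _ = _ := by
      rw [Fintype.sum_prod_type]
      simp [Finset.mul_sum]

theorem dl_update {n : ℕ} (σ : V → Fin n) (x : V) (c : Fin n) (e : Sym2 V) (h : x ∉ e) :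
    dl (Function.update σ x c) e = dl σ e := by
  induction e with
  | _ p r =>
    rw [Sym2.mem_iff] at h
    push Not at h
    rw [dl_mk, dl_mk, Function.update_of_ne h.1.symm, Function.update_of_ne h.2.symm]

theorem fac_update {A B : Sym2 V → ℂ} {n : ℕ} (σ : V → Fin n) (x u w : V) (c : Fin n)
    (hB : ∀ v, v ≠ u → v ≠ w → B s(x, v) = 0) (e : Sym2 V) (h1 : e ≠ s(x, u)) (h2 : e ≠ s(x, w)) :
    A e + B e * dl (Function.update σ x c) e = A e + B e * dl σ e := by
  by_cases hx : x ∈ e
  · obtain ⟨v, rfl⟩ := hx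
    have hvu : v ≠ u := by rintro rfl; exact h1 rfl
    have hvw : v ≠ w := by rintro rfl; exact h2 rfl
    rw [hB v hvu hvw, zero_mul, zero_mul]
  · rw [dl_update σ x c e hx]

/-- new weights after eliminating `x` whose neighbours are among `u, w` -/
def A2 {R : Type} [CommRing R] (A B : Sym2 V → R) (q : R) (x u w : V) : Sym2 V → R := fun e =>
  if e = s(x, u) then 1 else if e = s(x, w) then 1 else if e = s(u, w) then
    A e * (q * A s(x, u) * A s(x, w) + A s(x, u) * B s(x, w) + B s(x, u) * A s(x, w)) else A e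

def B2 {R : Type} [CommRing R] (A B : Sym2 V → R) (q : R) (x u w : V) : Sym2 V → R := fun e =>
  if e = s(x, u) then 0 else if e = s(x, w) then 0 else if e = s(u, w) then
    A e * (B s(x, u) * B s(x, w)) +
    B e * (q * A s(x, u) * A s(x, w) + A s(x, u) * B s(x, w) + B s(x, u) * A s(x, w)) +
    B e * (B s(x, u) * B s(x, w)) else B e

theorem prod_three (e1 e2 e3 : Sym2 V) (h12 : e1 ≠ e2) (h13 : e1 ≠ e3) (h23 : e2 ≠ e3)
    (f : Sym2 V → ℂ) : ∏ e, f e = f e1 * f e2 * f e3 *
      ∏ e ∈ ((Finset.univ.erase e1).erase e2).erase e3, f e := by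
  rw [← Finset.mul_prod_erase Finset.univ f (Finset.mem_univ e1),
    ← Finset.mul_prod_erase (Finset.univ.erase e1) f (a := e2) (by simp [h12.symm]),
    ← Finset.mul_prod_erase ((Finset.univ.erase e1).erase e2) f (a := e3)
      (by simp [h13.symm, h23.symm])]
  ring

theorem elim_two {A B : Sym2 V → ℂ} {n : ℕ} (x u w : V) (hxu : x ≠ u) (hxw : x ≠ w) (huw : u ≠ w)
    (hB : ∀ v, v ≠ u → v ≠ w → B s(x, v) = 0) (σ : V → Fin n) :
    ∑ c : Fin n, W A B (Function.update σ x c) = W (A2 A B n x u w) (B2 A B n x u w) σ := by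
  have h12 : s(x, u) ≠ s(x, w) := by
    intro h
    rw [Sym2.eq_iff] at h
    rcases h with ⟨-, h⟩ | ⟨h, -⟩
    · exact huw h
    · exact hxw h
  have h13 : s(x, u) ≠ s(u, w) := by
    intro h
    rw [Sym2.eq_iff] at h
    rcases h with ⟨h, -⟩ | ⟨h, -⟩
    · exact hxu h
    · exact hxw h
  have h23 : s(x, w) ≠ s(u, w) := by
    intro h
    rw [Sym2.eq_iff] at h
    rcases h with ⟨h, -⟩ | ⟨h, -⟩
    · exact hxu h
    · exact hxw h
  set S := ((Finset.univ.erase s(x, u)).erase s(x, w)).erase s(u, w) with hS
  set Rest := ∏ e ∈ S, (A e + B e * dl σ e) with hRest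
  have hmemS : ∀ e ∈ S, e ≠ s(x, u) ∧ e ≠ s(x, w) ∧ e ≠ s(u, w) := by
    intro e he
    simp only [hS, Finset.mem_erase, Finset.mem_univ, and_true] at he
    exact ⟨he.2.2, he.2.1, he.1⟩
  have key : ∀ c : Fin n, W A B (Function.update σ x c) =
      (A s(x, u) + B s(x, u) * (if c = σ u then 1 else 0)) *
      (A s(x, w) + B s(x, w) * (if c = σ w then 1 else 0)) *
      (A s(u, w) + B s(u, w) * dl σ s(u, w)) * Rest := by
    intro c
    unfold W
    rw [prod_three _ _ _ h12 h13 h23]
    congr 1
    · congr 1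
      · congr 1
        · rw [dl_mk, Function.update_self, Function.update_of_ne hxu.symm]
        · rw [dl_mk, Function.update_self, Function.update_of_ne hxw.symm]
      · rw [dl_mk, dl_mk, Function.update_of_ne hxu.symm, Function.update_of_ne hxw.symm]
    · apply Finset.prod_congr rfl
      intro e he
      exact fac_update σ x u w c hB e (hmemS e he).1 (hmemS e he).2.1
  have hsum : ∑ c : Fin n, ((A s(x, u) + B s(x, u) * (if c = σ u then 1 else 0)) *
      (A s(x, w) + B s(x, w) * (if c = σ w then 1 else 0))) =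
      (n * A s(x, u) * A s(x, w) + A s(x, u) * B s(x, w) + B s(x, u) * A s(x, w)) +
      (B s(x, u) * B s(x, w)) * dl σ s(u, w) := by
    have : ∀ c : Fin n, ((A s(x, u) + B s(x, u) * (if c = σ u then 1 else 0)) *
      (A s(x, w) + B s(x, w) * (if c = σ w then 1 else 0))) =
      A s(x, u) * A s(x, w) + (if c = σ w then A s(x, u) * B s(x, w) else 0) +
      (if c = σ u then B s(x, u) * A s(x, w) else 0) +
      (if c = σ u then (if σ u = σ w then B s(x, u) * B s(x, w) else 0) else 0) := by
      intro c
      by_cases h1 : c = σ u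
      · by_cases h2 : c = σ w
        · have h3 : σ u = σ w := h1.symm.trans h2
          simp only [h2, h3, if_true]; ring
        · have h3 : ¬ σ u = σ w := fun h => h2 (h1.trans h)
          simp only [h1, h3, if_true, if_false]; ring
      · by_cases h2 : c = σ w
        · have h3 : ¬ σ w = σ u := fun h => h1 (h2.trans h)
          simp only [h2, h3, if_true, if_false]; ring
        · simp only [h1, h2, if_false]; ring
    rw [Finset.sum_congr rfl (fun c _ => this c)]
    rw [Finset.sum_add_distrib, Finset.sum_add_distrib, Finset.sum_add_distrib]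
    simp only [Finset.sum_ite_eq', Finset.mem_univ, if_true, Finset.sum_const, Finset.card_univ,
      Fintype.card_fin, nsmul_eq_mul, dl_mk]
    split_ifs <;> ring
  rw [Finset.sum_congr rfl (fun c _ => key c), ← Finset.sum_mul, ← Finset.sum_mul, hsum]
  unfold W
  rw [prod_three _ _ _ h12 h13 h23]
  have r1 : ∏ e ∈ S, (A2 A B (n : ℂ) x u w e + B2 A B (n : ℂ) x u w e * dl σ e) = Rest := by
    apply Finset.prod_congr rfl
    intro e he
    obtain ⟨g1, g2, g3⟩ := hmemS e he
    simp only [A2, B2, g1, g2, g3, if_false]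
  rw [r1]
  congr 1
  have a1 : A2 A B (n : ℂ) x u w s(x, u) = 1 := by simp [A2]
  have b1 : B2 A B (n : ℂ) x u w s(x, u) = 0 := by simp [B2]
  have a2 : A2 A B (n : ℂ) x u w s(x, w) = 1 := by simp only [A2]; split_ifs <;> rfl
  have b2 : B2 A B (n : ℂ) x u w s(x, w) = 0 := by simp only [B2]; split_ifs <;> rfl
  have a3 : A2 A B (n : ℂ) x u w s(u, w) = A s(u, w) * ((n : ℂ) * A s(x, u) * A s(x, w) +
      A s(x, u) * B s(x, w) + B s(x, u) * A s(x, w)) := by
    simp only [A2, h13.symm, h23.symm, if_false, if_true]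
  have b3 : B2 A B (n : ℂ) x u w s(u, w) = A s(u, w) * (B s(x, u) * B s(x, w)) +
    B s(u, w) * ((n : ℂ) * A s(x, u) * A s(x, w) + A s(x, u) * B s(x, w) + B s(x, u) * A s(x, w)) +
    B s(u, w) * (B s(x, u) * B s(x, w)) := by
    simp only [B2, h13.symm, h23.symm, if_false, if_true]
  rw [a1, b1, a2, b2, a3, b3, dl_mk σ u w]
  split_ifs <;> ring

/-- new weights after eliminating `x` whose only neighbour is `u` -/
def A1 {R : Type} [CommRing R] (A B : Sym2 V → R) (q : R) (x u : V) : Sym2 V → R := fun e =>
  if e = s(x, u) then q * A e + B e else A e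

def B1 {R : Type} [CommRing R] (B : Sym2 V → R) (x u : V) : Sym2 V → R := fun e =>
  if e = s(x, u) then 0 else B e

theorem elim_one {A B : Sym2 V → ℂ} {n : ℕ} (x u : V) (hxu : x ≠ u)
    (hB : ∀ v, v ≠ u → B s(x, v) = 0) (σ : V → Fin n) :
    ∑ c : Fin n, W A B (Function.update σ x c) = W (A1 A B n x u) (B1 B x u) σ := by
  set S := Finset.univ.erase s(x, u) with hS
  set Rest := ∏ e ∈ S, (A e + B e * dl σ e) with hRest
  have hmemS : ∀ e ∈ S, e ≠ s(x, u) := by
    intro e he
    simp only [hS, Finset.mem_erase, Finset.mem_univ, and_true] at he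
    exact he
  have key : ∀ c : Fin n, W A B (Function.update σ x c) =
      (A s(x, u) + B s(x, u) * (if c = σ u then 1 else 0)) * Rest := by
    intro c
    unfold W
    rw [← Finset.mul_prod_erase Finset.univ _ (Finset.mem_univ s(x, u))]
    congr 1
    · rw [dl_mk, Function.update_self, Function.update_of_ne hxu.symm]
    · apply Finset.prod_congr rfl
      intro e he
      exact fac_update σ x u u c (fun v h _ => hB v h) e (hmemS e he) (hmemS e he)
  have hsum : ∑ c : Fin n, (A s(x, u) + B s(x, u) * (if c = σ u then 1 else 0)) =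
      n * A s(x, u) + B s(x, u) := by
    rw [Finset.sum_add_distrib]
    simp
  rw [Finset.sum_congr rfl (fun c _ => key c), ← Finset.sum_mul, hsum]
  unfold W
  rw [← Finset.mul_prod_erase Finset.univ _ (Finset.mem_univ s(x, u))]
  have r1 : ∏ e ∈ Finset.univ.erase s(x, u), (A1 A B (n : ℂ) x u e + B1 B x u e * dl σ e) = Rest := by
    apply Finset.prod_congr rfl
    intro e he
    have g1 := hmemS e he
    simp only [A1, B1, g1, if_false]
  rw [r1]
  congr 1
  simp [A1, B1]

/-- partition function of polynomial weights at `n` colours -/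
noncomputable def Z (A B : Sym2 V → ℂ[X]) (n : ℕ) : ℂ :=
  ∑ σ : V → Fin n, W (fun e => (A e).eval (n : ℂ)) (fun e => (B e).eval (n : ℂ)) σ

theorem Z_two {A B : Sym2 V → ℂ[X]} (x u w : V) (hxu : x ≠ u) (hxw : x ≠ w) (huw : u ≠ w)
    (hB : ∀ v, v ≠ u → v ≠ w → B s(x, v) = 0) (n : ℕ) :
    Z (A2 A B X x u w) (B2 A B X x u w) n = n * Z A B n := by
  unfold Z
  rw [← sum_update x]
  apply Finset.sum_congr rfl
  intro σ _
  rw [elim_two x u w hxu hxw huw (fun v h h' => by rw [hB v h h', eval_zero])]
  congr 1
  · funext e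
    simp only [A2]
    split_ifs <;> simp
  · funext e
    simp only [B2]
    split_ifs <;> simp

theorem Z_one {A B : Sym2 V → ℂ[X]} (x u : V) (hxu : x ≠ u)
    (hB : ∀ v, v ≠ u → B s(x, v) = 0) (n : ℕ) :
    Z (A1 A B X x u) (B1 B x u) n = n * Z A B n := by
  unfold Z
  rw [← sum_update x]
  apply Finset.sum_congr rfl
  intro σ _
  rw [elim_one x u hxu (fun v h => by rw [hB v h, eval_zero])]
  congr 1
  · funext e
    simp only [A1]
    split_ifs <;> simp
  · funext e
    simp only [B1]
    split_ifs <;> simp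

theorem Z_base {A B : Sym2 V → ℂ[X]} (hB : ∀ e, B e = 0) (n : ℕ) :
    Z A B n = (X ^ Fintype.card V * ∏ e, A e : ℂ[X]).eval (n : ℂ) := by
  unfold Z W
  simp [hB, eval_prod]

end PF


/-! ### the main induction -/

/-- moved degrees -/
def dNew {V : Type} [DecidableEq V] (d : V → V → ℕ) (x u w : V) : V → V → ℕ := fun p r =>
  if p = u ∧ r = w then d u w + d u x else if p = w ∧ r = u then d w u + d w x
  else if r = x then 0 else d p r

theorem sum_move {V : Type} [Fintype V] [DecidableEq V] (f : V → ℕ) (x w : V) (h : x ≠ w) :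
    ∑ r, (if r = w then f w + f x else if r = x then 0 else f r) = ∑ r, f r := by
  rw [← Finset.add_sum_erase Finset.univ f (Finset.mem_univ w),
    ← Finset.add_sum_erase (Finset.univ.erase w) f (a := x) (by simp [h]),
    ← Finset.add_sum_erase Finset.univ _ (Finset.mem_univ w),
    ← Finset.add_sum_erase (Finset.univ.erase w) _ (a := x) (by simp [h])]
  simp only [if_true, h, if_false]
  have : ∑ r ∈ (Finset.univ.erase w).erase x, (if r = w then f w + f x else if r = x then 0 else f r)
      = ∑ r ∈ (Finset.univ.erase w).erase x, f r := by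
    apply Finset.sum_congr rfl
    intro r hr
    simp only [Finset.mem_erase, Finset.mem_univ, and_true] at hr
    simp only [hr.1, hr.2, if_false]
  rw [this]
  ring

theorem dNew_sum {V : Type} [Fintype V] [DecidableEq V] (d : V → V → ℕ) (x u w : V)
    (hxu : x ≠ u) (hxw : x ≠ w) (huw : u ≠ w) (p : V) :
    ∑ r, dNew d x u w p r ≤ ∑ r, d p r := by
  by_cases hp : p = u
  · subst hp
    rw [← sum_move (d p) x w hxw]
    apply le_of_eq
    apply Finset.sum_congr rfl
    intro r _
    simp [dNew, huw]
  · by_cases hp' : p = w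
    · subst hp'
      rw [← sum_move (d p) x u hxu]
      apply le_of_eq
      apply Finset.sum_congr rfl
      intro r _
      simp [dNew, huw.symm]
    · apply Finset.sum_le_sum
      intro r _
      simp only [dNew, hp, hp', false_and, if_false]
      split_ifs
      · exact Nat.zero_le _
      · exact le_rfl

theorem comb_aux {a3 b3 c D : ℂ} (h : a3 ≠ 0) (h' : D ≠ 0) :
    1 + (a3 * c + b3 * D + b3 * c) / (a3 * D) = (1 + b3 / a3) * (1 + c / D) := by
  field_simp
  ring

theorem main_aux {V : Type} [Fintype V] [DecidableEq V] (k : ℕ) (q : ℂ) (hc : Cond k q) :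
    ∀ (m : ℕ) (H : SimpleGraph V) (A B : Sym2 V → ℂ[X]) (d : V → V → ℕ),
    (active H).ncard ≤ m → ¬ HasK4Minor H →
    (∀ u w, ¬ H.Adj u w → B s(u, w) = 0) →
    (∀ e, (A e).eval q ≠ 0) →
    (∀ u w, H.Adj u w → 1 ≤ d u w) →
    (∀ u w, H.Adj u w → Bd (2 / ‖q‖) (1 + (B s(u, w)).eval q / (A s(u, w)).eval q)
      (psi (2 / ‖q‖) (d u w) (d w u))) →
    (∀ u, ∑ w, d u w ≤ k) →
    ∃ (j : ℕ) (P : ℂ[X]), (∀ n : ℕ, P.eval (n : ℂ) = (n : ℂ) ^ j * Z A B n) ∧ P.eval q ≠ 0 := by
  have hq0 : q ≠ 0 := norm_pos_iff.1 hc.pos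
  have hl : 0 ≤ 2 / ‖q‖ := by have := hc.pos; positivity
  intro m
  induction m with
  | zero =>
    intro H A B d hm _ hB hA _ _ _
    have h0 : active H = ∅ := by
      rw [← Set.ncard_eq_zero (Set.toFinite _)]; omega
    have hBz : ∀ e, B e = 0 := by
      intro e
      induction e with
      | _ u w =>
        apply hB
        intro h
        have : u ∈ active H := ⟨w, h⟩
        rw [h0] at this
        exact this
    refine ⟨0, X ^ Fintype.card V * ∏ e, A e, fun n => ?_, ?_⟩
    · rw [Z_base hBz, pow_zero, one_mul]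
    · rw [eval_mul, eval_pow, eval_X, eval_prod]
      exact mul_ne_zero (pow_ne_zero _ hq0) (Finset.prod_ne_zero_iff.2 fun e _ => hA e)
  | succ m ih =>
    intro H A B d hm hK hB hA hd hBd hsum
    have hdk : ∀ u w, d u w ≤ k := fun u w =>
      (Finset.single_le_sum (fun i _ => Nat.zero_le (d u i)) (Finset.mem_univ w)).trans (hsum u)
    by_cases hact : (active H).ncard ≤ m
    · exact ih H A B d hact hK hB hA hd hBd hsum
    have hne : (active H).Nonempty := by
      by_contra h
      rw [Set.not_nonempty_iff_eq_empty] at h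
      rw [h, Set.ncard_empty] at hact
      omega
    obtain ⟨a, b, hab⟩ := hne
    obtain ⟨x, ⟨u, hxu⟩, p, p', hpp⟩ := exists_small H hK a b hab
    have hKu : ¬ HasK4Minor (contract H x u) := fun h => hK (contract_minor H x u hxu h)
    have hcard : (active (contract H x u)).ncard ≤ m := by
      have := active_contract_ncard H x u hxu
      omega
    by_cases hdeg : ∃ w, H.Adj x w ∧ w ≠ u
    · obtain ⟨w, hxw, hwu⟩ := hdeg
      have hN : ∀ v, H.Adj x v → v = u ∨ v = w := by
        intro v hv
        rcases hpp u hxu with h1 | h1 <;> rcases hpp w hxw with h2 | h2 <;>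
          rcases hpp v hv with h3 | h3
        · exact absurd (h2.trans h1.symm) hwu
        · exact absurd (h2.trans h1.symm) hwu
        · left; rw [h1, h3]
        · right; rw [h2, h3]
        · right; rw [h2, h3]
        · left; rw [h1, h3]
        · exact absurd (h2.trans h1.symm) hwu
        · exact absurd (h2.trans h1.symm) hwu
      have nxu : x ≠ u := hxu.ne
      have nxw : x ≠ w := hxw.ne
      have nuw : u ≠ w := hwu.symm
      have hH' : ∀ p r, (contract H x u).Adj p r ↔ p ≠ r ∧ p ≠ x ∧ r ≠ x ∧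
          (H.Adj p r ∨ (p = u ∧ r = w) ∨ (r = u ∧ p = w)) := by
        intro p r
        constructor
        · rintro ⟨h1, h2, h3, h4⟩
          refine ⟨h1, h2, h3, ?_⟩
          rcases h4 with h | ⟨h, h'⟩ | ⟨h, h'⟩
          · exact Or.inl h
          · rcases hN r h' with h'' | h''
            · exact absurd (h.trans h''.symm) h1
            · exact Or.inr (Or.inl ⟨h, h''⟩)
          · rcases hN p h' with h'' | h''
            · exact absurd (h''.trans h.symm) h1
            · exact Or.inr (Or.inr ⟨h, h''⟩)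
        · rintro ⟨h1, h2, h3, h4⟩
          refine ⟨h1, h2, h3, ?_⟩
          rcases h4 with h | ⟨h, h'⟩ | ⟨h, h'⟩
          · exact Or.inl h
          · exact Or.inr (Or.inl ⟨h, by rw [h']; exact hxw⟩)
          · exact Or.inr (Or.inr ⟨h, by rw [h']; exact hxw⟩)
      have hBx : ∀ v, v ≠ u → v ≠ w → B s(x, v) = 0 := by
        intro v h1 h2
        apply hB
        intro h
        rcases hN v h with h' | h'
        · exact h1 h'
        · exact h2 h'
      -- values at `q`
      set a1 := (A s(x, u)).eval q with ha1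
      set b1 := (B s(x, u)).eval q with hb1
      set a2 := (A s(x, w)).eval q with ha2
      set b2 := (B s(x, w)).eval q with hb2
      set a3 := (A s(u, w)).eval q with ha3
      set b3 := (B s(u, w)).eval q with hb3
      have a1n : a1 ≠ 0 := hA _
      have a2n : a2 ≠ 0 := hA _
      have a3n : a3 ≠ 0 := hA _
      have hv1 : Bd (2 / ‖q‖) (1 + b1 / a1) (psi (2 / ‖q‖) (d u x) (d x u)) := by
        have := hBd u x hxu.symm
        rw [Sym2.eq_swap] at this
        exact this
      have hv2 : Bd (2 / ‖q‖) (1 + b2 / a2) (psi (2 / ‖q‖) (d w x) (d x w)) := by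
        have := hBd w x hxw.symm
        rw [Sym2.eq_swap] at this
        exact this
      obtain ⟨hden, hser⟩ := hc.series (hdk u x) (hdk x u) (hdk x w) (hdk w x)
        (hd u x hxu.symm) (hd w x hxw.symm) hv1 hv2
      have hA' : (q * a1 * a2 + a1 * b2 + b1 * a2) = a1 * a2 * (q + b1 / a1 + b2 / a2) := by
        field_simp; ring
      have hA'n : q * a1 * a2 + a1 * b2 + b1 * a2 ≠ 0 := by
        rw [hA']
        exact mul_ne_zero (mul_ne_zero a1n a2n) hden
      have hs3 : Bd (2 / ‖q‖) (1 + b3 / a3) (psi (2 / ‖q‖) (d u w) (d w u)) := by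
        by_cases h : H.Adj u w
        · exact hBd u w h
        · right
          have : b3 = 0 := by rw [hb3, hB u w h, eval_zero]
          rw [this, zero_div, add_zero, sub_self, norm_zero]
          have := Real.one_le_exp (mul_nonneg hl (psi_nonneg hl (d u w) (d w u)))
          linarith
      have evA : (A2 A B X x u w s(u, w)).eval q = a3 * (q * a1 * a2 + a1 * b2 + b1 * a2) := by
        have g1 : s(u, w) ≠ s(x, u) := by
          intro h
          rw [Sym2.eq_iff] at h
          rcases h with ⟨h, -⟩ | ⟨-, h⟩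
          · exact nxu h.symm
          · exact nxw h.symm
        have g2 : s(u, w) ≠ s(x, w) := by
          intro h
          rw [Sym2.eq_iff] at h
          rcases h with ⟨h, -⟩ | ⟨h, -⟩
          · exact nxu h.symm
          · exact nuw h
        simp only [A2, g1, g2, if_false, if_true, eval_mul, eval_add, eval_X]
        rfl
      have evB : (B2 A B X x u w s(u, w)).eval q = a3 * (b1 * b2) +
          b3 * (q * a1 * a2 + a1 * b2 + b1 * a2) + b3 * (b1 * b2) := by
        have g1 : s(u, w) ≠ s(x, u) := by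
          intro h
          rw [Sym2.eq_iff] at h
          rcases h with ⟨h, -⟩ | ⟨-, h⟩
          · exact nxu h.symm
          · exact nxw h.symm
        have g2 : s(u, w) ≠ s(x, w) := by
          intro h
          rw [Sym2.eq_iff] at h
          rcases h with ⟨h, -⟩ | ⟨h, -⟩
          · exact nxu h.symm
          · exact nuw h
        simp only [B2, g1, g2, if_false, if_true, eval_mul, eval_add, eval_X]
        rfl
      have hcomb : 1 + (a3 * (b1 * b2) + b3 * (q * a1 * a2 + a1 * b2 + b1 * a2) + b3 * (b1 * b2)) /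
          (a3 * (q * a1 * a2 + a1 * b2 + b1 * a2)) =
          (1 + b3 / a3) * (1 + b1 / a1 * (b2 / a2) / (q + b1 / a1 + b2 / a2)) := by
        have e1 : b1 / a1 * (b2 / a2) / (q + b1 / a1 + b2 / a2) =
            b1 * b2 / (q * a1 * a2 + a1 * b2 + b1 * a2) := by
          rw [hA', div_eq_div_iff hden (mul_ne_zero (mul_ne_zero a1n a2n) hden)]
          field_simp
        rw [e1]
        exact comb_aux a3n hA'n
      have hnew : Bd (2 / ‖q‖) (1 + (B2 A B X x u w s(u, w)).eval q /
          (A2 A B X x u w s(u, w)).eval q)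
          (psi (2 / ‖q‖) (d u w + d u x) (d w u + d w x)) := by
        rw [evA, evB, hcomb]
        exact (hs3.mul hser).mono hl (psi_add hl _ _ _ _)
      suffices hsuf : ∃ (j : ℕ) (P : ℂ[X]), (∀ n : ℕ, P.eval (n : ℂ) =
          (n : ℂ) ^ j * Z (A2 A B X x u w) (B2 A B X x u w) n) ∧ P.eval q ≠ 0 by
        obtain ⟨j, P, hP1, hP2⟩ := hsuf
        refine ⟨j + 1, P, fun n => ?_, hP2⟩
        rw [hP1, Z_two x u w nxu nxw nuw hBx, pow_succ]
        ring
      refine ih (contract H x u) (A2 A B X x u w) (B2 A B X x u w)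
        (dNew d x u w) hcard hKu ?_ ?_ ?_ ?_ ?_
      · -- B vanishes off the graph
        intro p r hpr
        by_cases h1 : s(p, r) = s(x, u)
        · simp [B2, h1]
        by_cases h2 : s(p, r) = s(x, w)
        · simp only [B2, h2]; split_ifs <;> rfl
        by_cases h3 : s(p, r) = s(u, w)
        · exfalso
          apply hpr
          rw [hH']
          rw [Sym2.eq_iff] at h3
          rcases h3 with ⟨h, h'⟩ | ⟨h, h'⟩
          · rw [h, h']
            exact ⟨nuw, nxu.symm, nxw.symm, Or.inr (Or.inl ⟨rfl, rfl⟩)⟩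
          · rw [h, h']
            exact ⟨nuw.symm, nxw.symm, nxu.symm, Or.inr (Or.inr ⟨rfl, rfl⟩)⟩
        · simp only [B2, h1, h2, h3, if_false]
          apply hB
          intro h
          by_cases hpx : p = x
          · rw [hpx] at h h1 h2
            rcases hN r h with h' | h'
            · exact h1 (by rw [h'])
            · exact h2 (by rw [h'])
          · by_cases hrx : r = x
            · rw [hrx] at h h1 h2
              rcases hN p h.symm with h' | h'
              · exact h1 (by rw [h', Sym2.eq_swap])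
              · exact h2 (by rw [h', Sym2.eq_swap])
            · exact hpr ((hH' p r).2 ⟨h.ne, hpx, hrx, Or.inl h⟩)
      · intro e
        by_cases h1 : e = s(x, u)
        · simp [A2, h1]
        by_cases h2 : e = s(x, w)
        · simp only [A2, h2]; split_ifs <;> simp
        by_cases h3 : e = s(u, w)
        · rw [h3, evA]
          exact mul_ne_zero a3n hA'n
        · simp only [A2, h1, h2, h3, if_false]
          exact hA e
      · intro p r hpr
        rw [hH'] at hpr
        obtain ⟨g1, g2, g3, g4⟩ := hpr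
        unfold dNew
        by_cases c1 : p = u ∧ r = w
        · rw [if_pos c1]
          have := hd u x hxu.symm
          omega
        · rw [if_neg c1]
          by_cases c2 : p = w ∧ r = u
          · rw [if_pos c2]
            have := hd w x hxw.symm
            omega
          · rw [if_neg c2, if_neg g3]
            apply hd
            rcases g4 with h | h | h
            · exact h
            · exact absurd h c1
            · exact absurd ⟨h.2, h.1⟩ c2
      · intro p r hpr
        rw [hH'] at hpr
        obtain ⟨g1, g2, g3, g4⟩ := hpr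
        by_cases c1 : p = u ∧ r = w
        · obtain ⟨rfl, rfl⟩ := c1
          have e1 : dNew d x p r p r = d p r + d p x := by simp [dNew]
          have e2 : dNew d x p r r p = d r p + d r x := by simp [dNew, nuw.symm]
          rw [e1, e2]
          exact hnew
        · by_cases c2 : p = w ∧ r = u
          · obtain ⟨rfl, rfl⟩ := c2
            have e1 : dNew d x r p p r = d p r + d p x := by simp [dNew, nuw.symm]
            have e2 : dNew d x r p r p = d r p + d r x := by simp [dNew]
            rw [e1, e2, psi_comm, Sym2.eq_swap]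
            exact hnew
          · have e1 : dNew d x u w p r = d p r := by
              unfold dNew
              rw [if_neg c1, if_neg c2, if_neg g3]
            have e2 : dNew d x u w r p = d r p := by
              unfold dNew
              rw [if_neg (fun h => c2 ⟨h.2, h.1⟩), if_neg (fun h => c1 ⟨h.2, h.1⟩), if_neg g2]
            have hadj : H.Adj p r := by
              rcases g4 with h | h | h
              · exact h
              · exact absurd h c1
              · exact absurd ⟨h.2, h.1⟩ c2
            have f1 : s(p, r) ≠ s(x, u) := by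
              intro h
              rw [Sym2.eq_iff] at h
              rcases h with ⟨h, -⟩ | ⟨-, h⟩
              · exact g2 h
              · exact g3 h
            have f2 : s(p, r) ≠ s(x, w) := by
              intro h
              rw [Sym2.eq_iff] at h
              rcases h with ⟨h, -⟩ | ⟨-, h⟩
              · exact g2 h
              · exact g3 h
            have f3 : s(p, r) ≠ s(u, w) := by
              intro h
              rw [Sym2.eq_iff] at h
              rcases h with h | h
              · exact c1 h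
              · exact c2 h
            rw [e1, e2]
            simp only [A2, B2, f1, f2, f3, if_false]
            exact hBd p r hadj
      · intro p
        exact (dNew_sum d x u w nxu nxw nuw p).trans (hsum p)
    · push Not at hdeg
      have hN : ∀ v, H.Adj x v → v = u := hdeg
      have nxu : x ≠ u := hxu.ne
      have hH' : ∀ p r, (contract H x u).Adj p r ↔ p ≠ x ∧ r ≠ x ∧ H.Adj p r := by
        intro p r
        constructor
        · rintro ⟨h1, h2, h3, h4⟩
          refine ⟨h2, h3, ?_⟩
          rcases h4 with h | ⟨h, h'⟩ | ⟨h, h'⟩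
          · exact h
          · exact absurd (h.trans (hN r h').symm) h1
          · exact absurd ((hN p h').trans h.symm) h1
        · rintro ⟨h1, h2, h3⟩
          exact ⟨h3.ne, h1, h2, Or.inl h3⟩
      have hBx : ∀ v, v ≠ u → B s(x, v) = 0 := by
        intro v h1
        apply hB
        intro h
        exact h1 (hN v h)
      set a1 := (A s(x, u)).eval q with ha1
      set b1 := (B s(x, u)).eval q with hb1
      have a1n : a1 ≠ 0 := hA _
      have hv1 : Bd (2 / ‖q‖) (1 + b1 / a1) (psi (2 / ‖q‖) (d u x) (d x u)) := by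
        have := hBd u x hxu.symm
        rw [Sym2.eq_swap] at this
        exact this
      have hn1 := hc.norm_bound' (hdk u x) (hdk x u) hv1
      have hden : q + b1 / a1 ≠ 0 := by
        intro h
        have h' : q = -(b1 / a1) := by linear_combination h
        have h'' : ‖q‖ = ‖b1 / a1‖ := by
          conv_lhs => rw [h', norm_neg]
        have := hc.pos
        linarith
      have hA'n : q * a1 + b1 ≠ 0 := by
        have : q * a1 + b1 = a1 * (q + b1 / a1) := by field_simp
        rw [this]
        exact mul_ne_zero a1n hden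
      suffices hsuf : ∃ (j : ℕ) (P : ℂ[X]), (∀ n : ℕ, P.eval (n : ℂ) =
          (n : ℂ) ^ j * Z (A1 A B X x u) (B1 B x u) n) ∧ P.eval q ≠ 0 by
        obtain ⟨j, P, hP1, hP2⟩ := hsuf
        refine ⟨j + 1, P, fun n => ?_, hP2⟩
        rw [hP1, Z_one x u nxu hBx, pow_succ]
        ring
      refine ih (contract H x u) (A1 A B X x u) (B1 B x u)
        d hcard hKu ?_ ?_ ?_ ?_ hsum
      · intro p r hpr
        by_cases h1 : s(p, r) = s(x, u)
        · simp [B1, h1]
        · simp only [B1, h1, if_false]
          apply hB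
          intro h
          by_cases hpx : p = x
          · rw [hpx] at h h1
            exact h1 (by rw [hN r h])
          · by_cases hrx : r = x
            · rw [hrx] at h h1
              exact h1 (by rw [hN p h.symm, Sym2.eq_swap])
            · exact hpr ((hH' p r).2 ⟨hpx, hrx, h⟩)
      · intro e
        by_cases h1 : e = s(x, u)
        · rw [h1]
          simp only [A1, if_true, eval_add, eval_mul, eval_X]
          exact hA'n
        · simp only [A1, h1, if_false]
          exact hA e
      · intro p r hpr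
        exact hd p r ((hH' p r).1 hpr).2.2
      · intro p r hpr
        obtain ⟨g2, g3, hadj⟩ := (hH' p r).1 hpr
        have f1 : s(p, r) ≠ s(x, u) := by
          intro h
          rw [Sym2.eq_iff] at h
          rcases h with ⟨h, -⟩ | ⟨-, h⟩
          · exact g2 h
          · exact g3 h
        simp only [A1, B1, f1, if_false]
        exact hBd p r hadj

/-! ### chromatic polynomials -/

/-- number of proper colourings of `G` with `n` colours -/
noncomputable def numColourings {V : Type} (G : SimpleGraph V) (n : ℕ) : ℕ :=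
  Nat.card {σ : V → Fin n // ∀ x y, G.Adj x y → σ x ≠ σ y}

/-- `P` is the chromatic polynomial of `G`: its value at every positive integer `n` is the number
of proper colourings of `G` with `n` colours -/
def IsChromaticPolynomial {V : Type} (G : SimpleGraph V) (P : ℂ[X]) : Prop :=
  ∀ n : ℕ, 1 ≤ n → P.eval (n : ℂ) = (numColourings G n : ℂ)

section Chrom

variable {V : Type} [Fintype V]

open Classical in
/-- weight `-1` on edges -/
noncomputable def Bw (G : SimpleGraph V) (e : Sym2 V) : ℂ[X] := if e ∈ G.edgeSet then -1 else 0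

open Classical in
theorem W_proper (G : SimpleGraph V) {n : ℕ} (σ : V → Fin n) :
    W (fun _ => (1 : ℂ)) (fun e => (Bw G e).eval (n : ℂ)) σ =
      if ∀ x y, G.Adj x y → σ x ≠ σ y then 1 else 0 := by
  unfold W
  split_ifs with h
  · apply Finset.prod_eq_one
    intro e _
    induction e with
    | _ u w =>
      show (1 : ℂ) + (Bw G s(u, w)).eval (n : ℂ) * dl σ s(u, w) = 1
      unfold Bw
      by_cases he : s(u, w) ∈ G.edgeSet
      · rw [dl_mk, if_neg (h u w he), mul_zero, add_zero]
      · rw [if_neg he, eval_zero, zero_mul, add_zero]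
  · push Not at h
    obtain ⟨x, y, hxy, hs⟩ := h
    apply Finset.prod_eq_zero (Finset.mem_univ s(x, y))
    show (1 : ℂ) + (Bw G s(x, y)).eval (n : ℂ) * dl σ s(x, y) = 0
    unfold Bw
    have he : s(x, y) ∈ G.edgeSet := hxy
    rw [dl_mk, if_pos hs, if_pos he]
    simp

open Classical in
theorem Z_colourings (G : SimpleGraph V) (n : ℕ) :
    Z (fun _ => (1 : ℂ[X])) (Bw G) n = (numColourings G n : ℂ) := by
  unfold Z numColourings
  have h1 : ∀ σ : V → Fin n, W (fun _ => ((1 : ℂ[X]).eval (n : ℂ)))
      (fun e => (Bw G e).eval (n : ℂ)) σ = if ∀ x y, G.Adj x y → σ x ≠ σ y then 1 else 0 := by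
    intro σ
    rw [← W_proper G σ, eval_one]
  rw [Finset.sum_congr rfl (fun σ _ => h1 σ), Finset.sum_boole, Nat.card_eq_fintype_card,
    Fintype.card_subtype]

/-- the equivalence relation generated by a set of pairs -/
def genRel (T : Set (Sym2 V)) : Setoid V := Relation.EqvGen.setoid (fun a b => s(a, b) ∈ T)

open Classical in
theorem card_const (T : Finset (Sym2 V)) (n : ℕ) :
    ∑ σ : V → Fin n, ∏ e ∈ T, dl σ e =
      (n : ℂ) ^ Fintype.card (Quotient (genRel (T : Set (Sym2 V)))) := by
  have h1 : ∀ σ : V → Fin n, ∏ e ∈ T, dl σ e =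
      if genRel (T : Set (Sym2 V)) ≤ Setoid.ker σ then 1 else 0 := by
    intro σ
    have hiff : genRel (T : Set (Sym2 V)) ≤ Setoid.ker σ ↔ ∀ a b, s(a, b) ∈ T → σ a = σ b := by
      unfold genRel
      constructor
      · intro h a b hab
        exact h (Relation.EqvGen.rel a b hab)
      · intro h a b hab
        induction hab with
        | rel a b hab => exact h a b hab
        | refl a => rfl
        | symm a b _ ih => exact ih.symm
        | trans a b c _ _ ih1 ih2 => exact ih1.trans ih2
    split_ifs with h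
    · rw [hiff] at h
      apply Finset.prod_eq_one
      intro e he
      induction e with
      | _ u w => rw [dl_mk, if_pos (h u w he)]
    · rw [hiff] at h
      push Not at h
      obtain ⟨a, b, hab, hne⟩ := h
      apply Finset.prod_eq_zero hab
      rw [dl_mk, if_neg hne]
  rw [Finset.sum_congr rfl (fun σ _ => h1 σ), Finset.sum_boole, ← Fintype.card_subtype,
    Fintype.card_congr (Setoid.liftEquiv (genRel (T : Set (Sym2 V)))), Fintype.card_fun,
    Fintype.card_fin]
  push_cast
  rfl

/-- every finite graph has a chromatic polynomial -/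
theorem exists_chromatic (G : SimpleGraph V) :
    ∃ P : ℂ[X], ∀ n : ℕ, P.eval (n : ℂ) = (numColourings G n : ℂ) := by
  classical
  refine ⟨∑ T : Finset (Sym2 V), (∏ e ∈ T, Bw G e) *
    X ^ Fintype.card (Quotient (genRel (T : Set (Sym2 V)))), fun n => ?_⟩
  rw [← Z_colourings, eval_finsetSum]
  unfold Z W
  have h1 : ∀ σ : V → Fin n, ∏ e : Sym2 V, ((1 : ℂ[X]).eval (n : ℂ) +
      (Bw G e).eval (n : ℂ) * dl σ e) =
      ∑ T : Finset (Sym2 V), (∏ e ∈ T, (Bw G e).eval (n : ℂ)) * ∏ e ∈ T, dl σ e := by
    intro σ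
    simp only [eval_one, add_comm (1 : ℂ)]
    rw [Finset.prod_add_one]
    rw [Finset.powerset_univ]
    apply Finset.sum_congr rfl
    intro T _
    rw [Finset.prod_mul_distrib]
  rw [Finset.sum_congr rfl (fun σ _ => h1 σ), Finset.sum_comm]
  apply Finset.sum_congr rfl
  intro T _
  rw [← Finset.mul_sum, card_const, eval_mul, eval_prod, eval_pow, eval_X]

/-- no zero of modulus more than `32 k / log k` -/
theorem eval_ne_zero (G : SimpleGraph V) (hG : ¬ HasK4Minor G) (k : ℕ)
    (hk : ∀ v, (G.neighborSet v).ncard ≤ k) {P : ℂ[X]} (hP : IsChromaticPolynomial G P) {q : ℂ}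
    (hq : Cond k q) : P.eval q ≠ 0 := by
  classical
  have hl : 0 ≤ 2 / ‖q‖ := by have := hq.pos; positivity
  obtain ⟨j, Q, hQ1, hQ2⟩ := main_aux k q hq _ G (fun _ => (1 : ℂ[X])) (Bw G)
    (fun u w => if G.Adj u w then 1 else 0) le_rfl hG
    (by
      intro u w h
      have : s(u, w) ∉ G.edgeSet := h
      simp only [Bw, this, if_false])
    (by intro e; simp)
    (by intro u w h; simp [h])
    (by
      intro u w h
      left
      have : s(u, w) ∈ G.edgeSet := h
      simp only [Bw, this, if_true]
      simp)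
    (by
      intro u
      have h1 := hk u
      rw [Finset.sum_boole]
      have h2 : (G.neighborSet u).ncard = (Finset.univ.filter (fun w => G.Adj u w)).card := by
        rw [← Set.ncard_coe_finset]
        congr 1
        ext w
        simp
      rw [h2] at h1
      exact_mod_cast h1)
  have hPQ : X ^ j * P = Q := by
    apply Polynomial.eq_of_infinite_eval_eq
    have hinf : Set.Infinite (Set.range (fun n : ℕ => ((n + 1 : ℕ) : ℂ))) := by
      apply Set.infinite_range_of_injective
      intro a b hab
      have : ((a + 1 : ℕ) : ℂ) = ((b + 1 : ℕ) : ℂ) := hab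
      have := Nat.cast_injective this
      omega
    apply hinf.mono
    rintro _ ⟨n, rfl⟩
    show eval ((n + 1 : ℕ) : ℂ) (X ^ j * P) = eval ((n + 1 : ℕ) : ℂ) Q
    rw [hQ1 (n + 1), Z_colourings, eval_mul, eval_pow, eval_X, hP (n + 1) (by omega)]
  intro h0
  apply hQ2
  rw [← hPQ, eval_mul, h0, mul_zero]

end Chrom

/-- There is a constant `C` such that for every `k ≥ 2` and every finite series-parallel graph `G`
(no `K₄` minor) of maximum degree at most `k`, the chromatic polynomial `P` of `G` exists and all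
its complex roots `q` satisfy `|q| ≤ C k / log k`. -/
theorem result : ∃ C : ℝ, ∀ k : ℕ, 2 ≤ k → ∀ (V : Type) [Fintype V] (G : SimpleGraph V),
    ¬ HasK4Minor G → (∀ v, (G.neighborSet v).ncard ≤ k) →
    ∃ P : ℂ[X], IsChromaticPolynomial G P ∧
      ∀ q : ℂ, P.eval q = 0 → ‖q‖ ≤ C * k / Real.log k := by
  refine ⟨32, fun k hk V _ G hG hdeg => ?_⟩
  obtain ⟨P, hP⟩ := exists_chromatic G
  have hP' : IsChromaticPolynomial G P := fun n _ => hP n
  refine ⟨P, hP', fun q hq => ?_⟩
  by_contra hlt
  push Not at hlt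
  exact eval_ne_zero G hG k hdeg hP' (cond_of_large hk hlt.le) hq

end Pool.Agent.Results.MP_8269f7_co.SublinearMaxDegree
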